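import Pool.Agent.H51.MFQ.S1

/-!
# Board mfq, row IND: affine forms with independent linear parts are algebraically independent
-/

set_option autoImplicit false

open Module MvPolynomial

namespace Pool.MFQ

/-- IND over a field. -/
theorem ind_field {K τ ι : Type} [Field K] [Fintype τ] [Fintype ι] (p₀ : ι → K)
    (p : ι → τ → K) (hp : LinearIndependent K p) :
    Function.Injective
      (aeval (R := K) (fun a => (C (p₀ a) + ∑ i, C (p a i) * X i : MvPolynomial τ K))) := by
  classical
  have hinj : LinearMap.ker (Fintype.linearCombination K p) = ⊥ :=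
    LinearMap.ker_eq_bot.2 (linearIndependent_iff_injective_fintypeLinearCombination.1 hp)
  obtain ⟨g, hg⟩ := LinearMap.exists_leftInverse_of_injective (Fintype.linearCombination K p) hinj
  have hga : ∀ a, g (p a) = Pi.single a 1 := by
    intro a
    have h1 := congrArg (fun l => l (Pi.single a 1)) hg
    simpa [Fintype.linearCombination_apply, Pi.single_apply] using h1
  have hsum : ∀ a b, ∑ i, p a i * g (Pi.single i 1) b = if b = a then 1 else 0 := by
    intro a b
    have h1 : p a = ∑ i, p a i • (Pi.single i 1 : τ → K) := by
      funext j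
      simp [Finset.sum_apply, Pi.single_apply]
    have h2 : g (p a) b = ∑ i, p a i * g (Pi.single i 1) b := by
      conv_lhs => rw [h1]
      rw [map_sum]
      simp [Finset.sum_apply]
    rw [← h2, hga a, Pi.single_apply]
  let ψ : MvPolynomial τ K →ₐ[K] MvPolynomial ι K :=
    aeval (fun i => ∑ b, C (g (Pi.single i 1) b) * X b)
  let θ : MvPolynomial ι K →ₐ[K] MvPolynomial ι K := aeval (fun b => X b - C (p₀ b))
  have hcomp : (θ.comp ψ).comp
      (aeval (R := K) (fun a => (C (p₀ a) + ∑ i, C (p a i) * X i : MvPolynomial τ K))) =
      AlgHom.id K _ := by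
    apply MvPolynomial.algHom_ext
    intro a
    have h1 : ψ (C (p₀ a) + ∑ i, C (p a i) * X i) = C (p₀ a) + X a := by
      have h3 : ∀ i, ψ (X i) = ∑ b, C (g (Pi.single i 1) b) * X b := fun i => aeval_X _ i
      have h4 : ∀ r : K, ψ (C r) = C r := fun r => aeval_C _ r
      rw [map_add, map_sum, h4]
      congr 1
      have h5 : ∀ i, ψ (C (p a i) * X i) = ∑ b, C (p a i * g (Pi.single i 1) b) * X b := by
        intro i
        rw [map_mul, h3, h4, Finset.mul_sum]
        refine Finset.sum_congr rfl fun b _ => ?_
        rw [C_mul, mul_assoc]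
      rw [Finset.sum_congr rfl fun i _ => h5 i, Finset.sum_comm]
      have h6 : ∀ b, ∑ i, C (p a i * g (Pi.single i 1) b) * (X b : MvPolynomial ι K) =
          if b = a then X b else 0 := by
        intro b
        rw [← Finset.sum_mul, ← map_sum, hsum a b]
        split_ifs <;> simp
      rw [Finset.sum_congr rfl fun b _ => h6 b]
      simp
    have h2 : θ (C (p₀ a) + X a) = X a := by
      have h3 : θ (X a) = X a - C (p₀ a) := aeval_X _ a
      have h4 : θ (C (p₀ a)) = C (p₀ a) := aeval_C _ _
      rw [map_add, h3, h4]
      ring
    rw [AlgHom.comp_apply, AlgHom.comp_apply, aeval_X, h1, h2, AlgHom.id_apply]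
  intro x y hxy
  have h1 := congrArg (θ.comp ψ) hxy
  have h2 : ∀ z, (θ.comp ψ)
      (aeval (R := K) (fun a => (C (p₀ a) + ∑ i, C (p a i) * X i : MvPolynomial τ K)) z) = z :=
    fun z => by
      have := congrArg (fun l => l z) hcomp
      simpa using this
  rw [h2, h2] at h1
  exact h1

theorem h_ind : INDStmt := by
  intro R τ ι _ _ _ _ p₀ p hp
  classical
  have hK : LinearIndependent (FractionRing R)
      (fun a => fun i => algebraMap R (FractionRing R) (p a i)) := by
    rw [Fintype.linearIndependent_iff] at hp ⊢
    intro g hg
    obtain ⟨d, hd⟩ := IsLocalization.exist_integer_multiples_of_finite (nonZeroDivisors R) g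
    choose r hr using hd
    have h1 : ∑ a, r a • p a = 0 := by
      funext i
      apply IsFractionRing.injective R (FractionRing R)
      have h2 := congrFun hg i
      rw [Finset.sum_apply] at h2
      rw [Finset.sum_apply, map_sum, Pi.zero_apply, map_zero]
      have h3 : ∀ a, algebraMap R (FractionRing R) ((r a • p a) i) =
          algebraMap R (FractionRing R) (d : R) * (g a • algebraMap R (FractionRing R) (p a i)) := by
        intro a
        rw [Pi.smul_apply, smul_eq_mul, map_mul, hr a, Algebra.smul_def, smul_eq_mul, mul_assoc]
      rw [Finset.sum_congr rfl fun a _ => h3 a, ← Finset.mul_sum]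
      have h4 : (∑ a, g a • algebraMap R (FractionRing R) (p a i)) = 0 := by
        simpa using h2
      rw [h4, mul_zero]
    have h5 := hp r h1
    intro a
    have h6 := hr a
    rw [h5 a, map_zero, Algebra.smul_def] at h6
    have h7 : algebraMap R (FractionRing R) (d : R) ≠ 0 := by
      intro h8
      have h9 := (IsFractionRing.injective R (FractionRing R)) (h8.trans (map_zero _).symm)
      exact nonZeroDivisors.coe_ne_zero d h9
    rcases mul_eq_zero.1 h6.symm with h8 | h8
    · exact absurd h8 h7
    · exact h8
  have hinj := ind_field (fun a => algebraMap R (FractionRing R) (p₀ a)) _ hK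
  have hmapι : Function.Injective
      (MvPolynomial.map (σ := ι) (algebraMap R (FractionRing R))) :=
    MvPolynomial.map_injective _ (IsFractionRing.injective R (FractionRing R))
  intro x y hxy
  apply hmapι
  apply hinj
  have key : ∀ z : MvPolynomial ι R, aeval (R := FractionRing R)
      (fun a => (C (algebraMap R (FractionRing R) (p₀ a)) +
        ∑ i, C (algebraMap R (FractionRing R) (p a i)) * X i :
          MvPolynomial τ (FractionRing R)))
        (MvPolynomial.map (algebraMap R (FractionRing R)) z) =
      MvPolynomial.map (algebraMap R (FractionRing R))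
        (aeval (R := R) (fun a => (C (p₀ a) + ∑ i, C (p a i) * X i : MvPolynomial τ R)) z) := by
    intro z
    induction z using MvPolynomial.induction_on with
    | C r => simp
    | add f g hf hg => rw [map_add, map_add, map_add, map_add, hf, hg]
    | mul_X f a hf =>
      rw [map_mul, map_mul, map_mul, map_mul, hf, MvPolynomial.map_X, aeval_X, aeval_X]
      simp [map_sum]
  rw [key x, key y, hxy]

end Pool.MFQ
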