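import Pool.Agent.H51.MFQ.S1

/-!
# Board mfq, row THA: graded Poisson commutative algebras generated by elements of `S(V) + S(V)·h`
have a quantisation
-/

set_option autoImplicit false

open Module MvPolynomial

namespace Pool.MFQ.T95

section

variable {𝔤 : Type} [LieRing 𝔤] [LieAlgebra ℂ 𝔤]

theorem hasSym_zero (k : ℕ) : HasSym k (0 : UniversalEnvelopingAlgebra ℂ 𝔤) 0 := by
  refine ⟨0, Fin.elim0, Fin.elim0, ?_, ?_⟩
  · simp
  · intro ξ; simp

theorem Ulow_mono' {k l : ℕ} (h : k ≤ l) : Ulow 𝔤 k ≤ Ulow 𝔤 l := by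
  apply Submodule.span_mono
  rintro u ⟨w, hw, rfl⟩
  exact ⟨w, lt_of_lt_of_le hw h, rfl⟩

/-- The symbol of a monomial. -/
theorem sym_mono (hS : SYAStmt) {J : Type} (d : J → ℕ)
    (ev : MvPolynomial J ℂ →ₐ[ℂ] UniversalEnvelopingAlgebra ℂ 𝔤)
    (Ev : MvPolynomial J ℂ →ₐ[ℂ] (Dual ℂ 𝔤 → ℂ))
    (h : ∀ j, HasSym (d j) (ev (X j)) (Ev (X j))) (s : J →₀ ℕ) :
    HasSym (Finsupp.weight d s) (ev (monomial s 1)) (Ev (monomial s 1)) := by
  obtain ⟨hmul, _, _, hone, _, _, _⟩ := hS 𝔤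
  induction s using Finsupp.induction_linear with
  | zero =>
    have h1 : (monomial (0 : J →₀ ℕ) (1 : ℂ)) = 1 := rfl
    rw [h1, map_one, map_one, map_zero]
    exact hone
  | add s t hs ht =>
    have h1 : (monomial (s + t) (1 : ℂ)) = monomial s 1 * monomial t 1 := by
      rw [monomial_mul, one_mul]
    rw [h1, map_mul, map_mul, map_add]
    exact hmul _ _ _ _ _ _ hs ht
  | single j m =>
    rw [← X_pow_eq_monomial, Finsupp.weight_single]
    induction m with
    | zero =>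
      rw [pow_zero, map_one, map_one, zero_smul]
      exact hone
    | succ m ih =>
      rw [pow_succ, map_mul, map_mul, add_smul, one_smul]
      exact hmul _ _ _ _ _ _ ih (h j)

theorem sym_sum (hS : SYAStmt) (k : ℕ) {ι' : Type} (s : Finset ι')
    (u : ι' → UniversalEnvelopingAlgebra ℂ 𝔤) (P : ι' → Dual ℂ 𝔤 → ℂ)
    (h : ∀ i ∈ s, HasSym k (u i) (P i)) : HasSym k (∑ i ∈ s, u i) (∑ i ∈ s, P i) := by
  classical
  obtain ⟨_, hadd, _, _, _, _, _⟩ := hS 𝔤
  induction s using Finset.induction_on with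
  | empty => rw [Finset.sum_empty, Finset.sum_empty]; exact hasSym_zero k
  | insert a s ha ih =>
    rw [Finset.sum_insert ha, Finset.sum_insert ha]
    exact hadd _ _ _ _ _ (h a (Finset.mem_insert_self a s))
      (ih fun i hi => h i (Finset.mem_insert_of_mem hi))

theorem mono_eq {J A : Type} [Ring A] [Algebra ℂ A] (f : MvPolynomial J ℂ →ₐ[ℂ] A)
    (s : J →₀ ℕ) (c : ℂ) : f (monomial s c) = c • f (monomial s 1) := by
  rw [← map_smul, smul_monomial, smul_eq_mul, mul_one]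

theorem sym_whom (hS : SYAStmt) {J : Type} (d : J → ℕ)
    (ev : MvPolynomial J ℂ →ₐ[ℂ] UniversalEnvelopingAlgebra ℂ 𝔤)
    (Ev : MvPolynomial J ℂ →ₐ[ℂ] (Dual ℂ 𝔤 → ℂ))
    (h : ∀ j, HasSym (d j) (ev (X j)) (Ev (X j))) (n : ℕ) (Q : MvPolynomial J ℂ)
    (hQ : ∀ s ∈ Q.support, Finsupp.weight d s = n) : HasSym n (ev Q) (Ev Q) := by
  obtain ⟨_, _, hsmul, _, _, _, _⟩ := hS 𝔤
  rw [← MvPolynomial.support_sum_monomial_coeff Q, map_sum, map_sum]
  apply sym_sum hS
  intro s hs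
  rw [mono_eq ev, mono_eq Ev]
  apply hsmul
  rw [← hQ s hs]
  exact sym_mono hS d ev Ev h s

theorem low_whom (hS : SYAStmt) {J : Type} (d : J → ℕ)
    (ev : MvPolynomial J ℂ →ₐ[ℂ] UniversalEnvelopingAlgebra ℂ 𝔤)
    (Ev : MvPolynomial J ℂ →ₐ[ℂ] (Dual ℂ 𝔤 → ℂ))
    (h : ∀ j, HasSym (d j) (ev (X j)) (Ev (X j))) (n : ℕ) (Q : MvPolynomial J ℂ)
    (hQ : ∀ s ∈ Q.support, Finsupp.weight d s < n) : ev Q ∈ Ulow 𝔤 n := by
  obtain ⟨_, _, _, _, _, _, hlow⟩ := hS 𝔤
  rw [← MvPolynomial.support_sum_monomial_coeff Q, map_sum]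
  apply sum_mem
  intro s hs
  rw [mono_eq ev]
  apply Submodule.smul_mem
  exact hlow _ _ _ _ (sym_mono hS d ev Ev h s) (hQ s hs)

/-- The leading symbol of an element of the image. -/
theorem lead_sym (hS : SYAStmt) {J : Type} (d : J → ℕ)
    (ev : MvPolynomial J ℂ →ₐ[ℂ] UniversalEnvelopingAlgebra ℂ 𝔤)
    (Ev : MvPolynomial J ℂ →ₐ[ℂ] (Dual ℂ 𝔤 → ℂ))
    (h : ∀ j, HasSym (d j) (ev (X j)) (Ev (X j)))
    (hker : ∀ Q, Ev Q = 0 → ev Q = 0) (n : ℕ) :
    ∀ Q : MvPolynomial J ℂ, (∀ s ∈ Q.support, Finsupp.weight d s < n) →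
      ev Q = 0 ∨ ∃ (N : ℕ) (R : MvPolynomial J ℂ), Ev R ≠ 0 ∧ HasSym N (ev Q) (Ev R) := by
  classical
  obtain ⟨_, _, _, _, _, hadd, hlow⟩ := hS 𝔤
  induction n with
  | zero =>
    intro Q hQ
    left
    have h1 : Q.support = ∅ := by
      rw [Finset.eq_empty_iff_forall_notMem]
      intro s hs
      exact absurd (hQ s hs) (Nat.not_lt_zero _)
    rw [MvPolynomial.support_eq_empty] at h1
    rw [h1, map_zero]
  | succ n ih =>
    intro Q hQ
    have h1 : ∀ s ∈ (Q - weightedHomogeneousComponent d n Q).support,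
        Finsupp.weight d s < n := by
      intro s hs
      rw [MvPolynomial.mem_support_iff, coeff_sub, coeff_weightedHomogeneousComponent] at hs
      by_cases h2 : Finsupp.weight d s = n
      · rw [if_pos h2, sub_self] at hs
        exact absurd rfl hs
      · rw [if_neg h2, sub_zero] at hs
        have h3 := hQ s (MvPolynomial.mem_support_iff.2 hs)
        omega
    have h2 : ∀ s ∈ (weightedHomogeneousComponent d n Q).support, Finsupp.weight d s = n := by
      intro s hs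
      rw [MvPolynomial.mem_support_iff, coeff_weightedHomogeneousComponent] at hs
      by_contra h3
      rw [if_neg h3] at hs
      exact hs rfl
    by_cases h3 : Ev (weightedHomogeneousComponent d n Q) = 0
    · have h4 := hker _ h3
      have h5 := ih _ h1
      rw [map_sub, h4, sub_zero] at h5
      exact h5
    · right
      refine ⟨n, _, h3, ?_⟩
      have h4 := sym_whom hS d ev Ev h n _ h2
      have h5 := low_whom hS d ev Ev h n _ h1
      have h6 := hadd _ _ _ _ _ h4 h5 le_rfl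
      rw [← map_add, add_sub_cancel] at h6
      exact h6

end

theorem _root_.Pool.MFQ.h_tha (hA : ALGStmt) (hC : CEVStmt) (hO : OREStmt) (hT : TFStmt)
    (hU : UNQStmt) (hS : SYAStmt) (hY : SYTStmt) (hE : EVIStmt) (hB : THBStmt) : THAStmt := by
  intro 𝔤 _ _ _ V σ τ J _ _ b P d hab had hd hhom hbr
  obtain ⟨O, hO1, hO2, hO3, hO4, hO5⟩ := hO 𝔤 V σ τ b hab had
  have hth0 : O.th (0 : Lm σ τ) = 0 := by
    unfold Ore.th
    simp
  have hcomm : ∀ i j, O.th (P i) * O.th (P j) = O.th (P j) * O.th (P i) := by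
    intro i j
    have h1 := hB σ τ _ O (P i) (P j)
    rw [hO3, hO4, hO5, hbr i j, hth0] at h1
    exact sub_eq_zero.1 h1
  obtain ⟨ev, hev1, hev2⟩ := hC _ J (fun j => O.th (P j)) hcomm
  have hEv : ∀ j, aeval (R := ℂ) (fun j => evL b (P j)) (X j) = evL b (P j) := fun j =>
    aeval_X _ j
  have hsym : ∀ j, HasSym (d j) (ev (X j)) (aeval (R := ℂ) (fun j => evL b (P j)) (X j)) := by
    intro j
    rw [hEv, hev1]
    exact hY 𝔤 V σ τ b O hab had hO1 hO2 (d j) (P j) (hd j) (hhom j)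
  have hker : ∀ Q, aeval (R := ℂ) (fun j => evL b (P j)) Q = 0 → ev Q = 0 := by
    intro Q hQ
    refine hA σ τ _ J O P ?_ ?_ ev hev1 Q (hE 𝔤 σ τ J b P Q hQ)
    · intro i j
      rw [hO3, hO4, hO5]
      exact hbr i j
    · exact hT 𝔤 σ τ b O.e hO1
  have hlead : ∀ Q, ev Q = 0 ∨ ∃ (N : ℕ) (R : MvPolynomial J ℂ),
      aeval (R := ℂ) (fun j => evL b (P j)) R ≠ 0 ∧
        HasSym N (ev Q) (aeval (R := ℂ) (fun j => evL b (P j)) R) := by
    intro Q
    exact lead_sym hS d ev _ hsym hker (Q.support.sup (fun s => Finsupp.weight d s) + 1) Q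
      fun s hs => Nat.lt_succ_of_le (Finset.le_sup (f := fun s => Finsupp.weight d s) hs)
  obtain ⟨_, hadd, hsmul, _, _, _, hlow⟩ := hS 𝔤
  have hadj : ∀ R, aeval (R := ℂ) (fun j => evL b (P j)) R ∈
      Algebra.adjoin ℂ (Set.range fun j => evL b (P j)) := by
    intro R
    rw [Algebra.adjoin_range_eq_range_aeval]
    exact ⟨R, rfl⟩
  refine ⟨ev.range, ?_, ?_, ?_⟩
  · rintro u ⟨p, rfl⟩ v ⟨q, rfl⟩
    exact hev2 p q
  · rintro u ⟨Q, rfl⟩ hu
    rcases hlead Q with h1 | ⟨N, R, h1, h2⟩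
    · exact absurd h1 hu
    · exact ⟨N, _, h1, hadj R, h2⟩
  · apply le_antisymm
    · apply Algebra.adjoin_le
      rintro G ⟨j, rfl⟩
      by_cases h1 : evL b (P j) = 0
      · simp only [h1]
        exact zero_mem _
      · apply Algebra.subset_adjoin
        refine ⟨h1, ev (X j), ⟨X j, rfl⟩, d j, ?_⟩
        have h2 := hsym j
        rw [hEv] at h2
        exact h2
    · apply Algebra.adjoin_le
      rintro G ⟨hG, u, ⟨Q, rfl⟩, k, hk⟩
      have hk' : HasSym k (ev Q) G := hk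
      rcases hlead Q with h1 | ⟨N, R, h1, h2⟩
      · exfalso
        apply hG
        apply hU 𝔤 k (ev Q) G hk'
        rw [h1]
        exact zero_mem _
      · have h3 : k = N := by
          rcases lt_trichotomy k N with h4 | h4 | h4
          · exact absurd (hU 𝔤 N (ev Q) _ h2 (hlow _ _ _ _ hk' h4)) h1
          · exact h4
          · exact absurd (hU 𝔤 k (ev Q) _ hk' (hlow _ _ _ _ h2 h4)) hG
        subst h3
        have h4 := hadd _ _ _ _ _ hk' (hsmul _ (-1) _ _ h2)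
        have h5 := hU 𝔤 k _ _ h4 (by
          rw [neg_one_smul, add_neg_cancel]
          exact zero_mem _)
        rw [neg_one_smul, add_neg_eq_zero] at h5
        rw [h5]
        exact hadj R

end Pool.MFQ.T95

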