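import Pool.Agent.H51.MFQ.S1

/-!
# Board mfq, row UNQ: principal symbols are well defined (from PBW)
-/

set_option autoImplicit false

open Module

namespace Pool.MFQ.U95

section

variable {𝔤 : Type} [LieRing 𝔤] [LieAlgebra ℂ 𝔤]

/-- The product of the images of a list. -/
noncomputable def lp (l : List 𝔤) : UniversalEnvelopingAlgebra ℂ 𝔤 :=
  (l.map (UniversalEnvelopingAlgebra.ι ℂ)).prod

theorem lp_mem (l : List 𝔤) (k : ℕ) (h : l.length < k) : lp l ∈ Ulow 𝔤 k :=
  Submodule.subset_span ⟨l, h, rfl⟩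

theorem Ulow_mono' {k l : ℕ} (h : k ≤ l) : Ulow 𝔤 k ≤ Ulow 𝔤 l := by
  apply Submodule.span_mono
  rintro u ⟨w, hw, rfl⟩
  exact ⟨w, lt_of_lt_of_le hw h, rfl⟩

theorem iota_mul_mem (x : 𝔤) (k : ℕ) (u : UniversalEnvelopingAlgebra ℂ 𝔤) (hu : u ∈ Ulow 𝔤 k) :
    UniversalEnvelopingAlgebra.ι ℂ x * u ∈ Ulow 𝔤 (k + 1) := by
  induction hu using Submodule.span_induction with
  | mem w hw =>
    obtain ⟨l, hl, rfl⟩ := hw
    refine Submodule.subset_span ⟨x :: l, ?_, ?_⟩
    · simpa using hl
    · simp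
  | zero => rw [mul_zero]; exact zero_mem _
  | add a b _ _ ha hb => rw [mul_add]; exact add_mem ha hb
  | smul c a _ ha => rw [mul_smul_comm]; exact Submodule.smul_mem _ _ ha

theorem iota_comm (x y : 𝔤) :
    UniversalEnvelopingAlgebra.ι ℂ x * UniversalEnvelopingAlgebra.ι ℂ y -
      UniversalEnvelopingAlgebra.ι ℂ y * UniversalEnvelopingAlgebra.ι ℂ x =
      UniversalEnvelopingAlgebra.ι ℂ ⁅x, y⁆ := by
  let _ : LieRing (UniversalEnvelopingAlgebra ℂ 𝔤) := LieRing.ofAssociativeRing
  rw [LieHom.map_lie, LieRing.of_associative_ring_bracket]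

theorem lp_perm {l l' : List 𝔤} (h : l.Perm l') : lp l - lp l' ∈ Ulow 𝔤 l.length := by
  induction h with
  | nil => rw [sub_self]; exact zero_mem _
  | cons x h ih =>
    have h1 := iota_mul_mem x _ _ ih
    rw [mul_sub] at h1
    simpa [lp] using h1
  | swap x y l =>
    have h1 : lp (y :: x :: l) - lp (x :: y :: l) = lp (⁅y, x⁆ :: l) := by
      unfold lp
      simp only [List.map_cons, List.prod_cons]
      rw [← iota_comm y x, sub_mul, mul_assoc, mul_assoc]
    rw [h1]
    apply lp_mem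
    simp
  | trans h1 h2 ih1 ih2 =>
    rw [← h1.length_eq] at ih2
    have := add_mem ih1 ih2
    rwa [sub_add_sub_cancel] at this

/-- The sorted list with given multiplicities. -/
def srt {n : ℕ} (α : Fin n → ℕ) : List (Fin n) :=
  (List.ofFn fun i => List.replicate (α i) i).flatten

theorem srt_count {n : ℕ} (α : Fin n → ℕ) (j : Fin n) : (srt α).count j = α j := by
  unfold srt
  rw [List.count_flatten, List.map_ofFn, List.sum_ofFn]
  have h1 : ∀ i, (List.count j ∘ fun i => List.replicate (α i) i) i = if i = j then α i else 0 := by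
    intro i
    rw [Function.comp_apply, List.count_replicate]
    by_cases h : i = j
    · simp [h]
    · simp [h]
  rw [Finset.sum_congr rfl fun i _ => h1 i]
  simp

theorem srt_perm {n : ℕ} (l : List (Fin n)) : l.Perm (srt fun i => l.count i) :=
  List.perm_iff_count.2 fun j => (srt_count (fun i => l.count i) j).symm

theorem prod_map_srt {n : ℕ} {M : Type} [Monoid M] (f : Fin n → M) (α : Fin n → ℕ) :
    ((srt α).map f).prod = (List.ofFn fun i => (f i) ^ (α i)).prod := by
  unfold srt
  rw [List.map_flatten, List.prod_flatten, List.map_ofFn, List.map_ofFn]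
  congr 1
  congr 1
  funext i
  simp

/-- Extension of a function on a linearly independent family. -/
theorem exists_functional {ι' W : Type} [AddCommGroup W] [Module ℂ W] (v : ι' → W)
    (hv : LinearIndependent ℂ v) (y : ι' → ℂ) : ∃ f : W →ₗ[ℂ] ℂ, ∀ i, f (v i) = y i := by
  obtain ⟨f, hf⟩ := LinearMap.exists_extend
    ((Finsupp.linearCombination ℂ y) ∘ₗ hv.repr)
  refine ⟨f, fun i => ?_⟩
  have h1 := congrArg (fun l => l (⟨v i, Submodule.subset_span ⟨i, rfl⟩⟩ : Submodule.span ℂ (Set.range v))) hf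
  have h2 : hv.repr ⟨v i, Submodule.subset_span ⟨i, rfl⟩⟩ = Finsupp.single i 1 :=
    hv.repr_eq_single i _ rfl
  simpa [h2] using h1

/-- `ι` as a linear map. -/
noncomputable def iL : 𝔤 →ₗ[ℂ] UniversalEnvelopingAlgebra ℂ 𝔤 where
  toFun := fun x => UniversalEnvelopingAlgebra.ι ℂ x
  map_add' := fun x y => map_add (UniversalEnvelopingAlgebra.ι ℂ) x y
  map_smul' := fun c x => map_smul (UniversalEnvelopingAlgebra.ι ℂ) c x

/-- The multilinear map `x ↦ ι x₁ ⋯ ι x_j`. -/
noncomputable def mulU (j : ℕ) :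
    MultilinearMap ℂ (fun _ : Fin j => 𝔤) (UniversalEnvelopingAlgebra ℂ 𝔤) :=
  (MultilinearMap.mkPiAlgebraFin ℂ j (UniversalEnvelopingAlgebra ℂ 𝔤)).compLinearMap
    (fun _ => iL)

theorem mulU_apply (j : ℕ) (x : Fin j → 𝔤) :
    mulU j x = (List.ofFn fun i => UniversalEnvelopingAlgebra.ι ℂ (x i)).prod := rfl

/-- The multilinear form `x ↦ ξ x₁ ⋯ ξ x_j`. -/
noncomputable def mulX (ξ : Dual ℂ 𝔤) (j : ℕ) : MultilinearMap ℂ (fun _ : Fin j => 𝔤) ℂ :=
  (MultilinearMap.mkPiAlgebra ℂ (Fin j) ℂ).compLinearMap (fun _ => ξ)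

theorem mulX_apply (ξ : Dual ℂ 𝔤) (j : ℕ) (x : Fin j → 𝔤) : mulX ξ j x = ∏ i, ξ (x i) := rfl

theorem symb_val {n : ℕ} (b : Basis (Fin n) ℂ 𝔤) (ξ : Dual ℂ 𝔤) (k : ℕ)
    (S : UniversalEnvelopingAlgebra ℂ 𝔤 →ₗ[ℂ] ℂ)
    (hS : ∀ α : Fin n → ℕ,
      S ((List.ofFn fun i => (UniversalEnvelopingAlgebra.ι ℂ (b i)) ^ (α i)).prod) =
        if ∑ i, α i = k then ∏ i, (ξ (b i)) ^ (α i) else 0) (j : ℕ) :
    j ≤ k → (∀ u ∈ Ulow 𝔤 j, S u = 0) ∧
      ∀ x : Fin j → 𝔤, S ((List.ofFn fun i => UniversalEnvelopingAlgebra.ι ℂ (x i)).prod) =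
        if j = k then ∏ i, ξ (x i) else 0 := by
  induction j with
  | zero =>
    intro _
    refine ⟨?_, ?_⟩
    · intro u hu
      have h1 : Ulow 𝔤 0 = ⊥ := by
        unfold Ulow
        rw [Submodule.span_eq_bot]
        rintro u ⟨l, hl, _⟩
        exact absurd hl (Nat.not_lt_zero _)
      rw [h1, Submodule.mem_bot] at hu
      rw [hu, map_zero]
    · intro x
      have h1 := hS 0
      simp only [Pi.zero_apply, pow_zero, Finset.sum_const_zero, Finset.prod_const_one] at h1
      have h2 : (List.ofFn fun _ : Fin n => (1 : UniversalEnvelopingAlgebra ℂ 𝔤)).prod = 1 := by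
        rw [List.ofFn_const, List.prod_replicate, one_pow]
      rw [h2] at h1
      rw [List.ofFn_zero, List.prod_nil, h1]
      simp
  | succ j ih =>
    intro hj
    obtain ⟨ih1, ih2⟩ := ih (by omega)
    have hlow : ∀ u ∈ Ulow 𝔤 (j + 1), S u = 0 := by
      intro u hu
      induction hu using Submodule.span_induction with
      | mem w hw =>
        obtain ⟨l, hl, rfl⟩ := hw
        rcases Nat.lt_succ_iff_lt_or_eq.1 hl with h | h
        · exact ih1 _ (lp_mem l j h)
        · subst h
          have h1 := ih2 (fun i => l.get i)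
          rw [if_neg (by omega)] at h1
          rw [← h1]
          congr 2
          conv_lhs => rw [← List.ofFn_get l, List.map_ofFn]
          rfl
      | zero => exact map_zero S
      | add a b _ _ ha hb => rw [map_add, ha, hb, add_zero]
      | smul c a _ ha => rw [map_smul, ha, smul_zero]
    refine ⟨hlow, ?_⟩
    have h2 : S.compMultilinearMap (mulU (j + 1)) =
        (if j + 1 = k then (1 : ℂ) else 0) • mulX ξ (j + 1) := by
      refine Module.Basis.ext_multilinear (fun _ => b) fun v => ?_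
      rw [LinearMap.compMultilinearMap_apply, mulU_apply, smul_apply, mulX_apply]
      have h3 : (List.ofFn fun i => UniversalEnvelopingAlgebra.ι ℂ (b (v i))).prod =
          lp ((List.ofFn v).map b) := by
        unfold lp
        rw [List.map_map, List.map_ofFn]
        rfl
      have h4 := hlow _ (Ulow_mono' (by simp) (lp_perm ((srt_perm (List.ofFn v)).map b)) )
      rw [map_sub, sub_eq_zero] at h4
      have h5 : lp ((srt fun i => (List.ofFn v).count i).map b) =
          (List.ofFn fun i => (UniversalEnvelopingAlgebra.ι ℂ (b i)) ^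
            ((List.ofFn v).count i)).prod := by
        unfold lp
        rw [List.map_map, prod_map_srt]
        rfl
      have h6 : ∑ i, (List.ofFn v).count i = j + 1 := by
        have h9 := (srt_perm (List.ofFn v)).length_eq
        rw [List.length_ofFn] at h9
        refine Eq.trans ?_ h9.symm
        unfold srt
        rw [List.length_flatten, List.map_ofFn, List.sum_ofFn]
        exact Finset.sum_congr rfl fun i _ => by simp
      have h7 : ∏ i, (ξ (b i)) ^ ((List.ofFn v).count i) = ∏ i, ξ (b (v i)) := by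
        have h9 := ((srt_perm (List.ofFn v)).map (fun i => ξ (b i))).prod_eq
        rw [prod_map_srt, List.map_ofFn, List.prod_ofFn, List.prod_ofFn] at h9
        exact h9.symm
      rw [h3, h4, h5, hS, h6, h7]
      split_ifs <;> simp
    intro x
    have h8 := congrArg (fun l => l x) h2
    simp only [LinearMap.compMultilinearMap_apply, mulU_apply, smul_apply,
      mulX_apply] at h8
    rw [h8]
    split_ifs <;> simp

end

theorem _root_.Pool.MFQ.h_unq (hP : PBWStmt) : UNQStmt := by
  intro 𝔤 _ _ _ k u P hu hl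
  obtain ⟨m, c, x, h1, h2⟩ := hu
  funext ξ
  let b := Module.finBasis ℂ 𝔤
  obtain ⟨S, hS⟩ := exists_functional _ (hP 𝔤 _ b)
    (fun α => if ∑ i, α i = k then ∏ i, (ξ (b i)) ^ (α i) else 0)
  obtain ⟨h3, h4⟩ := symb_val b ξ k S hS k le_rfl
  have h5 := h3 _ (sub_mem hl h1)
  rw [sub_sub_cancel, map_sum] at h5
  rw [h2 ξ, Pi.zero_apply, ← h5]
  refine Finset.sum_congr rfl fun i _ => ?_
  rw [map_smul, h4, if_pos rfl, smul_eq_mul]

end Pool.MFQ.U95

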